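import Mathlib
import Pool.Agent.Y451.AM.Stm

/-!
Project AM (helper451), part TIL: random partial tilings from the rounds.
-/

set_option autoImplicit false
set_option linter.unusedSectionVars false

open Finset

noncomputable section

namespace Pool.Agent.Y381.AM

open Pool.Agent.Y451.AM

/-! ### the uniform probability on a finite set -/

section Pr

variable {Ω : Type} [Fintype Ω]

theorem pr_congr {E F : Ω → Prop} (h : ∀ ω, E ω ↔ F ω) : pr E = pr F := by
  have : E = F := funext fun ω => propext (h ω)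
  rw [this]

theorem pr_mono {E F : Ω → Prop} (h : ∀ ω, E ω → F ω) : pr E ≤ pr F := by
  classical
  unfold pr
  apply div_le_div_of_nonneg_right _ (Nat.cast_nonneg _)
  apply Finset.sum_le_sum
  intro ω _
  by_cases h1 : E ω
  · simp [h1, h ω h1]
  · by_cases h2 : F ω <;> simp [h1, h2]

theorem pr_nonneg (E : Ω → Prop) : 0 ≤ pr E := by
  classical
  unfold pr
  apply div_nonneg _ (Nat.cast_nonneg _)
  apply Finset.sum_nonneg
  intro ω _
  by_cases h1 : E ω <;> simp [h1]

theorem pr_le_one (E : Ω → Prop) : pr E ≤ 1 := by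
  classical
  unfold pr
  apply div_le_one_of_le₀ _ (Nat.cast_nonneg _)
  calc _ ≤ ∑ _ω : Ω, (1 : ℝ) := by
        apply Finset.sum_le_sum
        intro ω _
        by_cases h1 : E ω <;> simp [h1]
    _ = (Fintype.card Ω : ℝ) := by simp

/-- expectation -/
def Ex (f : Ω → ℝ) : ℝ := (∑ ω, f ω) / (Fintype.card Ω : ℝ)

open Classical in
theorem pr_eq (E : Ω → Prop) : pr E = Ex (fun ω => if E ω then (1 : ℝ) else 0) := rfl

theorem Ex_mono {f g : Ω → ℝ} (h : ∀ ω, f ω ≤ g ω) : Ex f ≤ Ex g :=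
  div_le_div_of_nonneg_right (Finset.sum_le_sum fun ω _ => h ω) (Nat.cast_nonneg _)

theorem Ex_sum {ι : Type*} (s : Finset ι) (f : ι → Ω → ℝ) :
    Ex (fun ω => ∑ i ∈ s, f i ω) = ∑ i ∈ s, Ex (f i) := by
  unfold Ex
  rw [Finset.sum_comm, Finset.sum_div]

theorem Ex_mul (c : ℝ) (f : Ω → ℝ) : Ex (fun ω => c * f ω) = c * Ex f := by
  unfold Ex
  rw [← Finset.mul_sum, mul_div_assoc]

/-- law of a random variable with values in a finite set -/
theorem sum_law {α : Type*} (s : Finset α) (V : Ω → α) (hV : ∀ ω, V ω ∈ s)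
    (g : α → ℝ) : ∑ A ∈ s, pr (fun ω => V ω = A) * g A = Ex (fun ω => g (V ω)) := by
  classical
  have h : ∀ ω, g (V ω) = ∑ A ∈ s, g A * (if V ω = A then (1 : ℝ) else 0) := by
    intro ω
    simp [hV ω]
  rw [show (fun ω => g (V ω)) = fun ω => ∑ A ∈ s, g A * (if V ω = A then (1 : ℝ) else 0) from
    funext h, Ex_sum]
  apply Finset.sum_congr rfl
  intro A _
  rw [Ex_mul, mul_comm]
  congr 1

/-- disjoint events -/
theorem sum_disj {ι : Type*} (s : Finset ι) (E : ι → Ω → Prop) (F : Ω → Prop)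
    (h1 : ∀ i ∈ s, ∀ ω, E i ω → F ω) (h2 : ∀ i ∈ s, ∀ j ∈ s, ∀ ω, E i ω → E j ω → i = j) :
    ∑ i ∈ s, pr (E i) ≤ pr F := by
  classical
  simp only [pr_eq]
  rw [← Ex_sum]
  apply Ex_mono
  intro ω
  by_cases h : ∃ i ∈ s, E i ω
  · obtain ⟨i, hi, hE⟩ := h
    rw [Finset.sum_eq_single i]
    · simp [hE, h1 i hi ω hE]
    · intro j hj hne
      have : ¬ E j ω := fun hj' => hne (h2 j hj i hi ω hj' hE)
      simp [this]
    · intro hn; exact absurd hi hn
  · push Not at h
    rw [Finset.sum_eq_zero]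
    · by_cases hF : F ω <;> simp [hF]
    · intro i hi
      simp [h i hi]

/-- union bound -/
theorem pr_union {ι : Type*} (s : Finset ι) (E : ι → Ω → Prop) (F : Ω → Prop)
    (h : ∀ ω, F ω → ∃ i ∈ s, E i ω) : pr F ≤ ∑ i ∈ s, pr (E i) := by
  classical
  simp only [pr_eq]
  rw [← Ex_sum]
  apply Ex_mono
  intro ω
  have hnn : ∀ i ∈ s, (0 : ℝ) ≤ (if E i ω then (1 : ℝ) else 0) := by
    intro i _
    split_ifs <;> norm_num
  by_cases hF : F ω
  · obtain ⟨i, hi, hE⟩ := h ω hF
    rw [if_pos hF]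
    calc (1 : ℝ) = (if E i ω then (1 : ℝ) else 0) := by rw [if_pos hE]
      _ ≤ _ := Finset.single_le_sum hnn hi
  · rw [if_neg hF]
    exact Finset.sum_nonneg hnn

end Pr

/-! ### iteration of the rounds -/

section Iter

variable {Γ X : Type} [Group Γ] [MeasurableSpace X]

theorem empty_tilF (a : Γ → X → X) (K S D : Finset Γ) :
    TilF a K S D (fun (_ : Unit) (_ : X) => (none : Option Γ)) where
  til := fun _ =>
    { meas := fun o => by
        by_cases h : (none : Option Γ) = o
        · simp [h]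
        · simp [h]
      mem := fun x v h => by simp at h }
  g2 := fun ω x v s _ h => by simp at h
  g3 := fun ω y h => by
    obtain ⟨u, hu⟩ := h
    unfold shp at hu
    simp at hu
  law := fun x x' E _ => rfl

theorem iterate (a : Γ → X → X) (K S : Finset Γ) (c : ℝ) 
    (hR : ∀ D : Finset Γ, ∃ D' : Finset Γ,
      ∀ (Ω : Type) [Fintype Ω] [Nonempty Ω] (p : Ω → X → Option Γ), TilF a K S D' p →
      ∃ (Ω' : Type) (_ : Fintype Ω') (_ : Nonempty Ω') (p' : Ω' → X → Option Γ),
        TilF a K S D p' ∧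
        ∀ x, min (1 / 4) (pr (fun ω => p ω x ≠ none) + c) ≤ pr (fun ω => p' ω x ≠ none))
    (hc : 0 < c) (m : ℕ) : ∀ D : Finset Γ,
      ∃ (Ω : Type) (_ : Fintype Ω) (_ : Nonempty Ω) (p : Ω → X → Option Γ),
        TilF a K S D p ∧ ∀ x, min (1 / 4) (m * c) ≤ pr (fun ω => p ω x ≠ none) := by
  induction m with
  | zero =>
    intro D
    refine ⟨Unit, inferInstance, inferInstance, _, empty_tilF a K S D, fun x => ?_⟩
    refine le_trans (min_le_right _ _) ?_
    simpa using pr_nonneg _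
  | succ m ih =>
    intro D
    obtain ⟨D', hD'⟩ := hR D
    obtain ⟨Ω, i1, i2, p, hp, hpx⟩ := ih D'
    obtain ⟨Ω', j1, j2, p', hp', hpx'⟩ := @hD' Ω i1 i2 p hp
    refine ⟨Ω', j1, j2, p', hp', fun x => le_trans ?_ (hpx' x)⟩
    refine le_min (min_le_left _ _) ?_
    have h1 := hpx x
    rcases le_total (1 / 4 : ℝ) (m * c) with h | h
    · rw [min_eq_left h] at h1
      refine le_trans (min_le_left _ _) ?_
      linarith
    · rw [min_eq_right h] at h1
      refine le_trans (min_le_right _ _) ?_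
      push_cast
      linarith

end Iter

/-! ### the estimates -/

section Est

variable {Γ X Ω : Type} [Group Γ] [MeasurableSpace X] [Fintype Ω]

theorem mem_shp {a : Γ → X → X} {K : Finset Γ} {p : X → Option Γ} {y : X} {u : Γ} :
    u ∈ shp a K p y ↔ u ∈ K ∧ p (a u y) = some u := by
  classical
  unfold shp
  rw [Finset.mem_filter]

theorem shp_sub (a : Γ → X → X) (K : Finset Γ) (p : X → Option Γ) (y : X) :
    shp a K p y ∈ K.powerset := by
  rw [Finset.mem_powerset]
  exact fun u hu => (mem_shp.1 hu).1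

/-- the shape at `y` as an event about the window -/
theorem law_shp {a : Γ → X → X} {K S D : Finset Γ} {p : Ω → X → Option Γ}
    (hp : TilF a K S D p) (hK : K ⊆ D) (P : Finset Γ → Prop) (x x' : X) :
    pr (fun ω => P (shp a K (p ω) x)) = pr (fun ω => P (shp a K (p ω) x')) := by
  classical
  have := hp.law x x' (fun z => P (K.filter fun u => z u = some u)) (by
    intro z z' hz h
    have : K.filter (fun u => z u = some u) = K.filter (fun u => z' u = some u) := by
      apply Finset.filter_congr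
      intro u hu
      rw [hz u (hK hu)]
    rwa [← this])
  have e : ∀ (w : X) (ω : Ω), shp a K (p ω) w = K.filter (fun u => p ω (a u w) = some u) := by
    intro w ω
    ext u
    rw [mem_shp, Finset.mem_filter]
  simp only [e]
  exact this

/-- the value at `x` as an event about the window -/
theorem law_one {a : Γ → X → X} (ha : ∀ x, a 1 x = x) {K S D : Finset Γ} {p : Ω → X → Option Γ}
    (hp : TilF a K S D p) (h1 : 1 ∈ D) (u : Γ) (x x' : X) :
    pr (fun ω => p ω x = some u) = pr (fun ω => p ω x' = some u) := by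
  have := hp.law x x' (fun z => z 1 = some u) (by
    intro z z' hz h
    rw [← hz 1 h1]; exact h)
  simpa [ha] using this

theorem law_two {a : Γ → X → X} (ha : ∀ x, a 1 x = x) {K S D : Finset Γ} {p : Ω → X → Option Γ}
    (hp : TilF a K S D p) (h1 : 1 ∈ D) {s : Γ} (hs : s ∈ D) (u v : Γ) (x x' : X) :
    pr (fun ω => p ω x = some u ∧ p ω (a s x) = some v)
      = pr (fun ω => p ω x' = some u ∧ p ω (a s x') = some v) := by
  have := hp.law x x' (fun z => z 1 = some u ∧ z s = some v) (by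
    intro z z' hz h
    rw [← hz 1 h1, ← hz s hs]; exact h)
  simpa [ha] using this

/-- expectation of the size of the shape -/
theorem ex_card {a : Γ → X → X} (ha : ∀ x, a 1 x = x) {K S D : Finset Γ} {p : Ω → X → Option Γ}
    (hp : TilF a K S D p) (h1 : 1 ∈ D) (y : X) :
    Ex (fun ω => ((shp a K (p ω) y).card : ℝ)) = pr (fun ω => p ω y ≠ none) := by
  classical
  have e : ∀ ω : Ω, ((shp a K (p ω) y).card : ℝ)
      = ∑ u ∈ K, (if p ω (a u y) = some u then (1 : ℝ) else 0) := by
    intro ω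
    have : shp a K (p ω) y = K.filter (fun u => p ω (a u y) = some u) := by
      ext u
      rw [mem_shp, Finset.mem_filter]
    rw [this, Finset.card_filter]
    push_cast
    rfl
  simp only [e]
  rw [Ex_sum]
  have e2 : ∀ u ∈ K, Ex (fun ω => if p ω (a u y) = some u then (1 : ℝ) else 0)
      = Ex (fun ω => if p ω y = some u then (1 : ℝ) else 0) := by
    intro u _
    have h := law_one ha hp h1 u (a u y) y
    rw [pr_eq, pr_eq] at h
    convert h
  rw [Finset.sum_congr rfl e2, ← Ex_sum, pr_eq]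
  congr 1
  funext ω
  rcases ho : p ω y with _ | v
  · simp
  · have hv : v ∈ K := (hp.til ω).mem y v ho
    simp [hv]

/-- the value `v` is taken with probability at most `2 / |K|` -/
theorem pr_val {a : Γ → X → X} (ha : ∀ x, a 1 x = x) (hm : ∀ g h x, a (g * h) x = a g (a h x))
    {K S D : Finset Γ} {p : Ω → X → Option Γ}
    (hp : TilF a K S D p) (h1 : 1 ∈ D) (hK : K.Nonempty) {v : Γ} (hv : v ∈ K)
    (x : X) : pr (fun ω => p ω x = some v) ≤ 2 / (K.card : ℝ) := by
  classical
  have hK0 : (0 : ℝ) < K.card := by exact_mod_cast Finset.card_pos.2 hK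
  have h2 : pr (fun ω => p ω x = some v) ≤ pr (fun ω => (shp a K (p ω) (a v⁻¹ x)).Nonempty) := by
    apply pr_mono
    intro ω h
    refine ⟨v, mem_shp.2 ⟨hv, ?_⟩⟩
    rw [← hm, mul_inv_cancel, ha]
    exact h
  refine h2.trans ?_
  have h3 := ex_card ha hp h1 (a v⁻¹ x)
  have h4 : pr (fun ω => p ω (a v⁻¹ x) ≠ none) ≤ 1 := pr_le_one _
  have h5 : (K.card : ℝ) / 2 * pr (fun ω => (shp a K (p ω) (a v⁻¹ x)).Nonempty)
      ≤ Ex (fun ω => ((shp a K (p ω) (a v⁻¹ x)).card : ℝ)) := by
    rw [pr_eq, ← Ex_mul]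
    apply Ex_mono
    intro ω
    by_cases hne : (shp a K (p ω) (a v⁻¹ x)).Nonempty
    · simp only [hne, if_true, mul_one]
      have := hp.g3 ω _ hne
      have h6 : (K.card : ℝ) ≤ 2 * ((shp a K (p ω) (a v⁻¹ x)).card : ℝ) := by exact_mod_cast this
      linarith
    · simp only [hne, if_false, mul_zero]
      positivity
  rw [h3] at h5
  rw [le_div_iff₀ hK0]
  nlinarith

open Classical in
/-- the expected boundary -/
theorem ex_bd {a : Γ → X → X} (ha : ∀ x, a 1 x = x) (hm : ∀ g h x, a (g * h) x = a g (a h x))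
    {K S S' D : Finset Γ} {p : Ω → X → Option Γ}
    (hp : TilF a K S' D p) (h1 : 1 ∈ D) (hS : S ⊆ S') (hSD : S ⊆ D) (hK : K.Nonempty)
    (η : ℝ) (hη1 : ∀ s ∈ S, (((K.filter fun v => s * v ∉ K).card : ℕ) : ℝ) ≤ η * K.card)
    (hη2 : ∀ s ∈ S, (((K.filter fun v => s⁻¹ * v ∉ K).card : ℕ) : ℝ) ≤ η * K.card)
    (y : X) : Ex (fun ω => ((bd S (shp a K (p ω) y)).card : ℝ)) ≤ (S.card : ℝ) * (4 * η) := by
  classical
  have hK0 : (0 : ℝ) < K.card := by exact_mod_cast Finset.card_pos.2 hK
  have e1 : ∀ ω : Ω, ((bd S (shp a K (p ω) y)).card : ℝ) ≤ ∑ s ∈ S, ∑ v ∈ K,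
      (if v ∈ shp a K (p ω) y ∧ s * v ∉ shp a K (p ω) y then (1 : ℝ) else 0) := by
    intro ω
    have hsub : bd S (shp a K (p ω) y) ⊆ S.biUnion fun s => K.filter fun v =>
        v ∈ shp a K (p ω) y ∧ s * v ∉ shp a K (p ω) y := by
      intro v hv
      unfold bd at hv
      rw [Finset.mem_filter] at hv
      obtain ⟨hv1, s, hs, hsv⟩ := hv
      rw [Finset.mem_biUnion]
      exact ⟨s, hs, Finset.mem_filter.2 ⟨(mem_shp.1 hv1).1, hv1, hsv⟩⟩
    have h2 := (Finset.card_le_card hsub).trans Finset.card_biUnion_le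
    calc ((bd S (shp a K (p ω) y)).card : ℝ)
        ≤ ((∑ s ∈ S, (K.filter fun v =>
          v ∈ shp a K (p ω) y ∧ s * v ∉ shp a K (p ω) y).card : ℕ) : ℝ) := by exact_mod_cast h2
      _ = _ := by
        push_cast
        apply Finset.sum_congr rfl
        intro s _
        rw [Finset.card_filter]
        push_cast
        rfl
  refine (Ex_mono e1).trans ?_
  rw [Ex_sum, ← nsmul_eq_mul, ← Finset.sum_const]
  apply Finset.sum_le_sum
  intro s hs
  rw [Ex_sum]
  have e2 : ∀ v ∈ K, Ex (fun ω => if v ∈ shp a K (p ω) y ∧ s * v ∉ shp a K (p ω) y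
      then (1 : ℝ) else 0) ≤ (if s * v ∉ K then 2 / (K.card : ℝ) else 0) +
        ∑ v' ∈ K.filter (fun v => s⁻¹ * v ∉ K),
          pr (fun ω => p ω y = some v ∧ p ω (a s y) = some v') := by
    intro v hv
    have e3 : Ex (fun ω => if v ∈ shp a K (p ω) y ∧ s * v ∉ shp a K (p ω) y
        then (1 : ℝ) else 0) = pr (fun ω => v ∈ shp a K (p ω) y ∧ s * v ∉ shp a K (p ω) y) := by
      rw [pr_eq]
      congr 1
      funext ω
      by_cases h : v ∈ shp a K (p ω) y ∧ s * v ∉ shp a K (p ω) y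
      · rw [if_pos h, if_pos h]
      · rw [if_neg h, if_neg h]
    rw [e3]
    have hsumnn : 0 ≤ ∑ v' ∈ K.filter (fun v => s⁻¹ * v ∉ K),
          pr (fun ω => p ω y = some v ∧ p ω (a s y) = some v') :=
      Finset.sum_nonneg fun _ _ => pr_nonneg _
    by_cases hsv : s * v ∉ K
    · rw [if_pos hsv]
      have h2 : pr (fun ω => v ∈ shp a K (p ω) y ∧ s * v ∉ shp a K (p ω) y)
          ≤ pr (fun ω => p ω (a v y) = some v) :=
        pr_mono fun ω h => (mem_shp.1 h.1).2
      have h3 := pr_val ha hm hp h1 hK hv (a v y)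
      linarith
    · rw [if_neg hsv, zero_add]
      push Not at hsv
      have h2 : pr (fun ω => v ∈ shp a K (p ω) y ∧ s * v ∉ shp a K (p ω) y)
          ≤ ∑ v' ∈ K.filter (fun v => s⁻¹ * v ∉ K),
            pr (fun ω => p ω (a v y) = some v ∧ p ω (a s (a v y)) = some v') := by
        apply pr_union
        intro ω h
        have h4 := (mem_shp.1 h.1).2
        obtain ⟨v', hv', hor⟩ := hp.g2 ω (a v y) v s (hS hs) h4 hsv
        have hv'K : v' ∈ K := (hp.til ω).mem _ _ hv'
        refine ⟨v', Finset.mem_filter.2 ⟨hv'K, ?_⟩, h4, hv'⟩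
        rcases hor with h5 | h5
        · exfalso
          apply h.2
          rw [mem_shp]
          refine ⟨hsv, ?_⟩
          rw [hm, hv', h5]
        · exact h5
      refine h2.trans (le_of_eq ?_)
      apply Finset.sum_congr rfl
      intro v' _
      exact law_two ha hp h1 (hSD hs) v v' (a v y) y
  refine (Finset.sum_le_sum e2).trans ?_
  rw [Finset.sum_add_distrib]
  have f1 : ∑ v ∈ K, (if s * v ∉ K then 2 / (K.card : ℝ) else 0) ≤ 2 * η := by
    rw [← Finset.sum_filter, Finset.sum_const, nsmul_eq_mul]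
    calc (((K.filter fun v => s * v ∉ K).card : ℕ) : ℝ) * (2 / (K.card : ℝ))
        ≤ (η * K.card) * (2 / (K.card : ℝ)) :=
          mul_le_mul_of_nonneg_right (hη1 s hs) (by positivity)
      _ = 2 * η := by field_simp
  have f2 : ∑ v ∈ K, ∑ v' ∈ K.filter (fun v => s⁻¹ * v ∉ K),
      pr (fun ω => p ω y = some v ∧ p ω (a s y) = some v') ≤ 2 * η := by
    rw [Finset.sum_comm]
    calc _ ≤ ∑ v' ∈ K.filter (fun v => s⁻¹ * v ∉ K), 2 / (K.card : ℝ) := by
          apply Finset.sum_le_sum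
          intro v' hv'
          refine le_trans ?_ (pr_val ha hm hp h1 hK (Finset.mem_filter.1 hv').1 (a s y))
          apply sum_disj
          · intro v _ ω h
            exact h.2
          · intro v _ w _ ω h h'
            have := h.1.symm.trans h'.1
            exact Option.some_injective _ this
      _ = (((K.filter fun v => s⁻¹ * v ∉ K).card : ℕ) : ℝ) * (2 / (K.card : ℝ)) := by
          rw [Finset.sum_const, nsmul_eq_mul]
      _ ≤ (η * K.card) * (2 / (K.card : ℝ)) :=
          mul_le_mul_of_nonneg_right (hη2 s hs) (by positivity)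
      _ = 2 * η := by field_simp
  linarith

end Est

/-- random partial tilings -/
theorem til (hR : S_RND) : S_TIL := by
  classical
  intro Γ _ _ hA X _ _ _ a ha S ε hε
  set S' : Finset Γ := S ∪ S.image (fun s => s⁻¹) with hS'
  set η : ℝ := ε / (4 * (S.card : ℝ) + 1) with hη
  have hη0 : 0 < η := by positivity
  obtain ⟨K, hK, hKf⟩ := hA S' η hη0
  have hsym : ∀ s ∈ S', s⁻¹ ∈ S' := by
    intro s hs
    rw [hS', Finset.mem_union, Finset.mem_image] at hs ⊢
    rcases hs with h | ⟨u, hu, rfl⟩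
    · exact Or.inr ⟨s, h, rfl⟩
    · left; simpa using hu
  obtain ⟨c, hc, hcR⟩ := hR Γ X a ha K S' hK hsym
  obtain ⟨m, hm⟩ := exists_nat_ge (1 / (4 * c))
  have hmc : (1 : ℝ) / 4 ≤ m * c := by
    have : 1 / (4 * c) * c ≤ m * c := mul_le_mul_of_nonneg_right hm hc.le
    have e : 1 / (4 * c) * c = 1 / 4 := by field_simp
    linarith
  set D : Finset Γ := K ∪ ({1} ∪ S') with hD
  obtain ⟨Ω, i1, i2, p, hp, hpx⟩ := iterate a K S' c hcR hc m D
  have h1D : (1 : Γ) ∈ D := by simp [hD]
  have hKD : K ⊆ D := fun x hx => by simp [hD, hx]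
  have hSS : S ⊆ S' := Finset.subset_union_left
  have hSD : S ⊆ D := fun x hx => by
    rw [hD, Finset.mem_union, Finset.mem_union]
    exact Or.inr (Or.inr (hSS hx))
  obtain ⟨y0⟩ := (inferInstance : Nonempty X)
  have hfil : ∀ s ∈ S', (((K.filter fun v => s * v ∉ K).card : ℕ) : ℝ) ≤ η * K.card := by
    intro s hs
    have h := hKf s hs
    have e : {v : Γ | v ∈ K ∧ s * v ∉ K} = ((K.filter fun v => s * v ∉ K : Finset Γ) : Set Γ) := by
      ext v; simp
    rw [e, Set.ncard_coe_finset] at h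
    exact h
  refine ⟨K, fun A => pr (fun ω => shp a K (p ω) y0 = A), Ω, i1, i2, p, hp.til,
    fun A => pr_nonneg _, ?_, ?_, ?_, ?_⟩
  · rw [sum_law K.powerset (fun ω => shp a K (p ω) y0) (fun ω => shp_sub a K _ _)
      (fun A => (A.card : ℝ)), ex_card ha.one hp h1D]
    have := hpx y0
    rwa [min_eq_left hmc] at this
  · rw [sum_law K.powerset (fun ω => shp a K (p ω) y0) (fun ω => shp_sub a K _ _)
      (fun A => (A.card : ℝ)), ex_card ha.one hp h1D]
    exact pr_le_one _
  · rw [sum_law K.powerset (fun ω => shp a K (p ω) y0) (fun ω => shp_sub a K _ _)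
      (fun A => ((bd S A).card : ℝ))]
    refine (ex_bd ha.one ha.mul hp h1D hSS hSD hK η (fun s hs => hfil s (hSS hs))
      (fun s hs => hfil s⁻¹ (hsym s (hSS hs))) y0).trans ?_
    rw [hη]
    have h4 : (0 : ℝ) ≤ S.card := Nat.cast_nonneg _
    rw [show (S.card : ℝ) * (4 * (ε / (4 * (S.card : ℝ) + 1)))
      = (4 * (S.card : ℝ)) / (4 * (S.card : ℝ) + 1) * ε by ring]
    calc (4 * (S.card : ℝ)) / (4 * (S.card : ℝ) + 1) * ε ≤ 1 * ε := by
          apply mul_le_mul_of_nonneg_right _ hε.le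
          rw [div_le_one (by positivity)]
          linarith
      _ = ε := one_mul _
  · intro x A hA' v hv
    have e : ∀ ω : Ω, (p ω x = some v ∧ shp a K (p ω) (a v⁻¹ x) = A)
        ↔ shp a K (p ω) (a v⁻¹ x) = A := by
      intro ω
      refine ⟨fun h => h.2, fun h => ⟨?_, h⟩⟩
      rw [← h, mem_shp] at hv
      have := hv.2
      rwa [← ha.mul, mul_inv_cancel, ha.one] at this
    rw [pr_congr e]
    exact law_shp hp hKD (fun B => B = A) _ _

end Pool.Agent.Y381.AM

end
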